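import Mathlib

/-!
# The tensor product of two domains over an algebraically closed field is a domain
-/

set_option autoImplicit false

open TensorProduct

namespace Pool.Agent.Lib.MP_c7af3c_ag.ELL.H58

universe u v w

/-- Points separate the elements of a finitely generated reduced algebra. -/
theorem eq_zero_of_points {k : Type u} [Field k] [IsAlgClosed k] {A : Type v} [CommRing A]
    [Algebra k A] [IsReduced A] [Algebra.FiniteType k A] (z : A)
    (h : ∀ φ : A →ₐ[k] k, φ z = 0) : z = 0 := by
  have hJ : IsJacobsonRing A := isJacobsonRing_of_finiteType (A := k)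
  have h1 : z ∈ (⊥ : Ideal A).jacobson := by
    rw [Ideal.jacobson, Ideal.mem_sInf]
    rintro m ⟨-, hm⟩
    let _ : Field (A ⧸ m) := Ideal.Quotient.field m
    have hf : Module.Finite k (A ⧸ m) := finite_of_finite_type_of_isJacobsonRing k (A ⧸ m)
    have hb : Function.Bijective (algebraMap k (A ⧸ m)) :=
      IsAlgClosed.algebraMap_bijective_of_isIntegral
    let e : k ≃ₐ[k] (A ⧸ m) := AlgEquiv.ofBijective (Algebra.ofId k (A ⧸ m)) hb
    have h2 := h (e.symm.toAlgHom.comp (Ideal.Quotient.mkₐ k m))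
    have h3 : Ideal.Quotient.mkₐ k m z = 0 := by
      have h4 : e (e.symm (Ideal.Quotient.mkₐ k m z)) = e 0 := congrArg e h2
      rwa [AlgEquiv.apply_symm_apply, map_zero] at h4
    exact Ideal.Quotient.eq_zero_iff_mem.1 h3
  rw [← Ideal.radical_eq_jacobson, Ideal.mem_radical_iff] at h1
  obtain ⟨n, hn⟩ := h1
  exact IsReduced.eq_zero z ⟨n, hn⟩

/-- Evaluation of the coefficients. -/
noncomputable def ev {k : Type u} [Field k] {A : Type v} [CommRing A] [Algebra k A] {B : Type w}
    [CommRing B] [Algebra k B] (φ : A →ₐ[k] k) : A ⊗[k] B →ₐ[k] B :=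
  (Algebra.TensorProduct.lid k B).toAlgHom.comp (Algebra.TensorProduct.map φ (AlgHom.id k B))

theorem ev_repr {k : Type u} [Field k] {A : Type v} [CommRing A] [Algebra k A] {B : Type w}
    [CommRing B] [Algebra k B] (φ : A →ₐ[k] k) {ι : Type*} (b : Module.Basis ι k B)
    (x : A ⊗[k] B) (i : ι) :
    b.repr (ev φ x) i = φ ((Algebra.TensorProduct.basis A b).repr x i) := by
  induction x using TensorProduct.induction_on with
  | zero => simp
  | tmul a m =>
    rw [Algebra.TensorProduct.basis_repr_tmul]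
    have h1 : ev φ (a ⊗ₜ[k] m) = φ a • m := by
      simp [ev]
    rw [h1]
    simp
  | add x y hx hy => simp only [map_add, Finsupp.add_apply, hx, hy]

theorem mul_eq_zero_fg {k : Type u} [Field k] [IsAlgClosed k] {A : Type v} [CommRing A]
    [Algebra k A] [IsDomain A] [Algebra.FiniteType k A] {B : Type w} [CommRing B] [Algebra k B]
    [IsDomain B] (x y : A ⊗[k] B) (hxy : x * y = 0) : x = 0 ∨ y = 0 := by
  by_contra hcon
  rw [not_or] at hcon
  obtain ⟨hx, hy⟩ := hcon
  let b := Module.Free.chooseBasis k B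
  let β := Algebra.TensorProduct.basis A b
  have h1 : β.repr x ≠ 0 := fun h => hx (by simpa using h)
  have h2 : β.repr y ≠ 0 := fun h => hy (by simpa using h)
  obtain ⟨i, hi⟩ := Finsupp.ne_iff.1 h1
  obtain ⟨j, hj⟩ := Finsupp.ne_iff.1 h2
  have hz : β.repr x i * β.repr y j ≠ 0 := mul_ne_zero hi hj
  have h3 : ∃ φ : A →ₐ[k] k, φ (β.repr x i * β.repr y j) ≠ 0 := by
    by_contra hn
    push Not at hn
    exact hz (eq_zero_of_points _ hn)
  obtain ⟨φ, hφ⟩ := h3
  rw [map_mul] at hφ
  have h4 : ev (B := B) φ x ≠ 0 := by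
    intro h
    have := ev_repr φ b x i
    rw [h, map_zero] at this
    exact hφ (by rw [← this]; simp)
  have h5 : ev (B := B) φ y ≠ 0 := by
    intro h
    have := ev_repr φ b y j
    rw [h, map_zero] at this
    exact hφ (by rw [← this]; simp)
  have h6 : ev (B := B) φ x * ev (B := B) φ y = 0 := by rw [← map_mul, hxy, map_zero]
  exact (mul_ne_zero h4 h5) h6

theorem nontriv {k : Type u} [Field k] {A : Type v} [CommRing A] [Algebra k A] [Nontrivial A]
    {B : Type w} [CommRing B] [Algebra k B] [Nontrivial B] : Nontrivial (A ⊗[k] B) := by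
  infer_instance

/-- **TDOM**. -/
theorem tdom {k : Type u} [Field k] [IsAlgClosed k] {A : Type v} [CommRing A] [Algebra k A]
    [IsDomain A] {B : Type w} [CommRing B] [Algebra k B] [IsDomain B] : IsDomain (A ⊗[k] B) := by
  have hnt : Nontrivial (A ⊗[k] B) := nontriv
  have hnz : NoZeroDivisors (A ⊗[k] B) := by
    refine ⟨?_⟩
    intro x y hxy
    obtain ⟨D1, hD1, hx⟩ := exists_fg_and_mem_baseChange x
    obtain ⟨D2, hD2, hy⟩ := exists_fg_and_mem_baseChange y
    let D := D1 ⊔ D2
    have hD : D.FG := hD1.sup hD2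
    have hfin : Algebra.FiniteType k D := D.fg_iff_finiteType.1 hD
    let f : A ⊗[k] D →ₐ[A] A ⊗[k] B := Algebra.TensorProduct.map (AlgHom.id A A) D.val
    have hf : Function.Injective f :=
      Module.Flat.lTensor_preserves_injective_linearMap _ Subtype.val_injective
    have hlift : ∀ (D' : Subalgebra k B) (hD' : D' ≤ D) (z : A ⊗[k] B),
        z ∈ D'.baseChange A → ∃ z', f z' = z := by
      intro D' hD' z hz
      obtain ⟨z0, rfl⟩ := hz
      refine ⟨Algebra.TensorProduct.map (AlgHom.id A A) (Subalgebra.inclusion hD') z0, ?_⟩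
      rw [← AlgHom.comp_apply]
      congr 1
      ext d
      rfl
    obtain ⟨x', rfl⟩ := hlift D1 le_sup_left x hx
    obtain ⟨y', rfl⟩ := hlift D2 le_sup_right y hy
    rw [← map_mul, map_eq_zero_iff f hf] at hxy
    let e : A ⊗[k] D ≃ₐ[k] D ⊗[k] A := Algebra.TensorProduct.comm k A D
    have h1 : e x' * e y' = 0 := by rw [← map_mul, hxy, map_zero]
    rcases mul_eq_zero_fg _ _ h1 with h | h
    · left
      rw [EmbeddingLike.map_eq_zero_iff] at h
      rw [h, map_zero]
    · right
      rw [EmbeddingLike.map_eq_zero_iff] at h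
      rw [h, map_zero]
  exact NoZeroDivisors.to_isDomain _

end Pool.Agent.Lib.MP_c7af3c_ag.ELL.H58
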