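import Mathlib
import Pool.Agent.Lib.MP_c7af3c_ag.ELL.H58.Tdom

/-!
# Products of integral schemes over an algebraically closed field are reduced
-/

set_option autoImplicit false

open TensorProduct CategoryTheory CategoryTheory.Limits AlgebraicGeometry

namespace Pool.Agent.Lib.MP_c7af3c_ag.ELL.H58

universe u

/-- A scheme with an open cover by spectra of domains. -/
def LocInt (X : Scheme.{u}) : Prop :=
  ∃ U : Scheme.OpenCover.{u} X, ∀ i, IsAffine (U.X i) ∧ IsIntegral (U.X i)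

theorem isIntegral_spec_pullback {k : Type u} [Field k] [IsAlgClosed k] (R S : CommRingCat.{u})
    [IsDomain R] [IsDomain S] (f : Spec R ⟶ Spec (.of k)) (g : Spec S ⟶ Spec (.of k)) :
    IsIntegral (pullback f g) := by
  obtain ⟨φ, rfl⟩ := Spec.map_surjective f
  obtain ⟨ψ, rfl⟩ := Spec.map_surjective g
  algebraize [φ.hom, ψ.hom]
  have hT : IsDomain (R ⊗[k] S) := tdom (k := k) (A := R) (B := S)
  have e : pullback (Spec.map φ) (Spec.map ψ) ≅ Spec (.of (R ⊗[k] S)) :=
    pullbackSpecIso k R S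
  exact IsIntegral.of_isIso e.inv

theorem isIntegral_affine_pullback {k : Type u} [Field k] [IsAlgClosed k] {X Y : Scheme.{u}}
    [IsAffine X] [IsAffine Y] [IsIntegral X] [IsIntegral Y]
    (f : X ⟶ Spec (.of k)) (g : Y ⟶ Spec (.of k)) : IsIntegral (pullback f g) := by
  have h1 := isIntegral_spec_pullback (k := k) Γ(X, ⊤) Γ(Y, ⊤) (X.isoSpec.inv ≫ f)
    (Y.isoSpec.inv ≫ g)
  have e : pullback (X.isoSpec.inv ≫ f) (Y.isoSpec.inv ≫ g) ≅ pullback f g :=
    asIso (pullback.map _ _ _ _ X.isoSpec.inv Y.isoSpec.inv (𝟙 _) (by simp) (by simp))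
  exact IsIntegral.of_isIso e.hom

theorem LocInt.pullback {k : Type u} [Field k] [IsAlgClosed k] {X Y : Scheme.{u}}
    (hX : LocInt X) (hY : LocInt Y) (f : X ⟶ Spec (.of k)) (g : Y ⟶ Spec (.of k)) :
    LocInt (Limits.pullback f g) := by
  obtain ⟨U, hU⟩ := hX
  obtain ⟨V, hV⟩ := hY
  refine ⟨Scheme.Pullback.openCoverOfLeftRight U V f g, fun i => ?_⟩
  obtain ⟨h1, h2⟩ := hU i.1
  obtain ⟨h3, h4⟩ := hV i.2
  constructor
  · change IsAffine (Limits.pullback (U.f i.1 ≫ f) (V.f i.2 ≫ g))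
    infer_instance
  · exact isIntegral_affine_pullback _ _

theorem LocInt.isReduced {X : Scheme.{u}} (hX : LocInt X) : IsReduced X := by
  obtain ⟨U, hU⟩ := hX
  have : ∀ i, IsReduced (U.X i) := fun i => by
    have := (hU i).2
    infer_instance
  exact IsReduced.of_openCover X U

theorem locInt_of_isIntegral (X : Scheme.{u}) [IsIntegral X] : LocInt X := by
  let W : {V : X.Opens // IsAffineOpen V ∧ Nonempty V} → X.Opens := fun V => V.1
  have hW : TopologicalSpace.IsOpenCover W := by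
    refine TopologicalSpace.IsOpenCover.mk (TopologicalSpace.Opens.ext ?_)
    ext x
    simp only [TopologicalSpace.Opens.coe_iSup, Set.mem_iUnion, SetLike.mem_coe,
      TopologicalSpace.Opens.coe_top, Set.mem_univ, iff_true]
    obtain ⟨V, hV, hx, -⟩ := exists_isAffineOpen_mem_and_subset (X := X) (x := x) (U := ⊤)
      (TopologicalSpace.Opens.mem_top x)
    exact ⟨⟨V, hV, ⟨⟨x, hx⟩⟩⟩, hx⟩
  refine ⟨X.openCoverOfIsOpenCover W hW, fun (V : {V : X.Opens // IsAffineOpen V ∧ Nonempty V}) =>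
    ?_⟩
  obtain ⟨V, hV, hV'⟩ := V
  have h1 : Nonempty (V : Scheme.{u}) := hV'
  have h2 : IsIntegral (V : Scheme.{u}) := isIntegral_of_isOpenImmersion (Scheme.Opens.ι V)
  exact ⟨hV, h2⟩

theorem isReduced_pullback {k : Type u} [Field k] [IsAlgClosed k] {X Y : Scheme.{u}}
    [IsIntegral X] [IsIntegral Y] (f : X ⟶ Spec (.of k)) (g : Y ⟶ Spec (.of k)) :
    IsReduced (Limits.pullback f g) :=
  ((locInt_of_isIntegral X).pullback (locInt_of_isIntegral Y) f g).isReduced

theorem isReduced_pullback₃ {k : Type u} [Field k] [IsAlgClosed k] {X Y Z : Scheme.{u}}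
    [IsIntegral X] [IsIntegral Y] [IsIntegral Z] (f : X ⟶ Spec (.of k)) (g : Y ⟶ Spec (.of k))
    (f' : Limits.pullback f g ⟶ Spec (.of k)) (h : Z ⟶ Spec (.of k)) :
    IsReduced (Limits.pullback f' h) :=
  (((locInt_of_isIntegral X).pullback (locInt_of_isIntegral Y) f g).pullback
    (locInt_of_isIntegral Z) f' h).isReduced

end Pool.Agent.Lib.MP_c7af3c_ag.ELL.H58
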