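import Pool.Agent.Lib.MP_c7af3c_ag.ELL.Iface
import Pool.Agent.Lib.MP_c7af3c_ag.ELL.H58.Gred

/-!
# MP_c7af3c_ag, project ELL: modules TDOM and GRED (helper58)
-/

set_option autoImplicit false

open CategoryTheory CategoryTheory.Limits AlgebraicGeometry MonoidalCategory
open scoped TensorProduct Polynomial

namespace Pool.Agent.Lib.MP_c7af3c_ag.ELL.H58

open Pool.Agent.Ell

/-- over a field extension `K / k`, `K ⊗ B k` embeds in `B K` -/
theorem base_domain (k K : Type) [Field k] [Field K] [Algebra k K] : IsDomain (K ⊗[k] B k) := by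
  haveI : IsScalarTower k K (B K) := IsScalarTower.of_algebraMap_eq (fun x => by
    have h1 : algebraMap k (B K) x = AdjoinRoot.of _ (algebraMap k K[X] x) := rfl
    have h2 : algebraMap K (B K) (algebraMap k K x) =
      AdjoinRoot.of _ (algebraMap K K[X] (algebraMap k K x)) := rfl
    rw [h1, h2, ← IsScalarTower.algebraMap_apply])
  let b : B k →ₐ[k] B K := bHom (bx K) (by' K) (onC_b K)
  let φ : K ⊗[k] B k →ₐ[K] B K := Algebra.TensorProduct.lift (Algebra.ofId K (B K)) b
    (fun _ _ => Commute.all _ _)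
  have h0 : OnC ((1 : K) ⊗ₜ[k] bx k) ((1 : K) ⊗ₜ[k] by' k) := by
    have h1 := congrArg (Algebra.TensorProduct.includeRight (R := k) (A := K) (B := B k)) (onC_b k)
    rw [map_pow, map_sub, map_pow] at h1
    exact h1
  let ψ : B K →ₐ[K] K ⊗[k] B k := bHom _ _ h0
  have hψφ : ψ.comp φ = AlgHom.id K (K ⊗[k] B k) := by
    refine Algebra.TensorProduct.ext (Subsingleton.elim _ _) ?_
    refine bHom_ext ?_ ?_
    · change ψ (φ ((1 : K) ⊗ₜ[k] bx k)) = (1 : K) ⊗ₜ[k] bx k
      have e1 : φ ((1 : K) ⊗ₜ[k] bx k) = bx K := by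
        change Algebra.TensorProduct.lift _ _ _ _ = _
        rw [Algebra.TensorProduct.lift_tmul, map_one, one_mul]
        exact bHom_bx _ _ _
      rw [e1]
      exact bHom_bx _ _ _
    · change ψ (φ ((1 : K) ⊗ₜ[k] by' k)) = (1 : K) ⊗ₜ[k] by' k
      have e1 : φ ((1 : K) ⊗ₜ[k] by' k) = by' K := by
        change Algebra.TensorProduct.lift _ _ _ _ = _
        rw [Algebra.TensorProduct.lift_tmul, map_one, one_mul]
        exact bHom_by _ _ _
      rw [e1]
      exact bHom_by _ _ _
  have hinj : Function.Injective φ := by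
    have : Function.LeftInverse ψ φ := fun x => DFunLike.congr_fun hψφ x
    exact this.injective
  haveI : IsDomain (B K) := isDomain_B K
  exact Function.Injective.isDomain (φ : K ⊗[k] B k →+* B K) hinj

/-- Module TDOM -/
theorem tdomB : TdomStatement := by
  intro k A _ _ _ _
  let K := FractionRing A
  haveI : IsDomain (K ⊗[k] B k) := base_domain k K
  let φ : A ⊗[k] B k →ₐ[k] K ⊗[k] B k :=
    Algebra.TensorProduct.map (IsScalarTower.toAlgHom k A K) (AlgHom.id k (B k))
  have hinj : Function.Injective φ := by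
    have h1 : Function.Injective (IsScalarTower.toAlgHom k A K).toLinearMap :=
      IsFractionRing.injective A K
    exact Module.Flat.rTensor_preserves_injective_linearMap (M := B k)
      (IsScalarTower.toAlgHom k A K).toLinearMap h1
  exact Function.Injective.isDomain (φ : A ⊗[k] B k →+* K ⊗[k] B k) hinj

theorem isIntegral_spec_pullback_B {k : Type} [Field k] (R : CommRingCat.{0})
    [IsDomain R] (f : Spec R ⟶ Spec (.of k)) : IsIntegral (pullback f (sC k)) := by
  obtain ⟨φ, rfl⟩ := Spec.map_surjective f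
  algebraize [φ.hom]
  have hT : IsDomain (R ⊗[k] B k) := tdomB k R
  have e : pullback (Spec.map φ) (sC k) ≅ Spec (.of (R ⊗[k] B k)) :=
    pullbackSpecIso k R (B k)
  exact IsIntegral.of_isIso e.inv

theorem isIntegral_affine_pullback_B {k : Type} [Field k] {X : Scheme.{0}}
    [IsAffine X] [IsIntegral X] (f : X ⟶ Spec (.of k)) : IsIntegral (pullback f (sC k)) := by
  have h1 := isIntegral_spec_pullback_B (k := k) Γ(X, ⊤) (X.isoSpec.inv ≫ f)
  have e : pullback (X.isoSpec.inv ≫ f) (sC k) ≅ pullback f (sC k) :=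
    asIso (pullback.map _ _ _ _ X.isoSpec.inv (𝟙 _) (𝟙 _) (by simp) (by simp))
  exact IsIntegral.of_isIso e.hom

/-- the two charts -/
noncomputable def chart (k : Type) [Field k] : (i : Bool) → (Cv k ⟶ El k)
  | true => j0 k
  | false => j1 k

theorem chart_sE (k : Type) [Field k] (i : Bool) : chart k i ≫ sE k = sC k := by
  cases i
  · exact j1_sE k
  · exact j0_sE k

instance (k : Type) [Field k] (i : Bool) : IsOpenImmersion (chart k i) := by
  cases i
  · exact inferInstanceAs (IsOpenImmersion (j1 k))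
  · exact inferInstanceAs (IsOpenImmersion (j0 k))

noncomputable def cov (k : Type) [Field k] : Scheme.OpenCover.{0} (El k) :=
  Scheme.Cover.mkOfCovers Bool (fun _ => Cv k) (chart k) (fun x => by
    rcases j_surj k x with ⟨y, hy⟩ | ⟨y, hy⟩
    · exact ⟨true, y, hy⟩
    · exact ⟨false, y, hy⟩) (fun i => inferInstanceAs (IsOpenImmersion (chart k i)))

theorem LocInt.pullbackE {k : Type} [Field k] {X : Scheme.{0}} (hX : LocInt X)
    (f : X ⟶ Spec (.of k)) : LocInt (Limits.pullback f (sE k)) := by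
  obtain ⟨U, hU⟩ := hX
  refine ⟨Scheme.Pullback.openCoverOfLeftRight U (cov k) f (sE k), fun i => ?_⟩
  obtain ⟨h1, h2⟩ := hU i.1
  have e : (cov k).f i.2 ≫ sE k = sC k := chart_sE k i.2
  haveI h3 : IsAffine ((cov k).X i.2) := inferInstanceAs (IsAffine (Cv k))
  constructor
  · change IsAffine (Limits.pullback (U.f i.1 ≫ f) ((cov k).f i.2 ≫ sE k))
    infer_instance
  · change IsIntegral (Limits.pullback (U.f i.1 ≫ f) ((cov k).f i.2 ≫ sE k))
    rw [e]
    exact isIntegral_affine_pullback_B _

theorem locIntE (k : Type) [Field k] : LocInt (El k) := by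
  haveI : IsDomain (B k) := isDomain_B k
  exact ⟨cov k, fun i => ⟨inferInstanceAs (IsAffine (Cv k)), inferInstanceAs (IsIntegral (Cv k))⟩⟩

/-- Module GRED -/
theorem gred : GredStatement := by
  intro k _
  have h2 : LocInt (EE k ⊗ EE k).left :=
    LocInt.pullbackE (k := k) (locIntE k) (sE k)
  refine ⟨h2.isReduced, ?_⟩
  exact (LocInt.pullbackE (k := k) h2 (EE k ⊗ EE k).hom).isReduced

end Pool.Agent.Lib.MP_c7af3c_ag.ELL.H58
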